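import Mathlib
import Pool.Agent.Helper88.EC.Family

set_option autoImplicit false

open Cardinal

namespace Pool.Agent.Results.MP_709666_lc.ContinuumManyEquivalent

open Pool.Agent.Helper88.EC

/-- There are continuum many pairwise nonisomorphic countable existentially closed groups whose
group von Neumann algebras are all elementarily equivalent to each other. -/
theorem result : ∃ (ι : Type) (G : ι → Type) (_ : ∀ i, Group (G i)), #ι = 𝔠 ∧
    (∀ i, Countable (G i)) ∧ (∀ i, IsEC (G i)) ∧ (∀ i j, i ≠ j → IsEmpty (G i ≃* G j)) ∧
    ∀ i j, ElemEquivVN (G i) (G j) := final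

end Pool.Agent.Results.MP_709666_lc.ContinuumManyEquivalent
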